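import Pool.Agent.Lib_helper21.QS.Alg
import Pool.Agent.Lib_helper69.QB.Defs

/-!
# QS / ALG (helper21): `ALGStmt` of helper69's list
-/

set_option autoImplicit false
set_option linter.unusedSimpArgs false
set_option linter.unusedSectionVars false
set_option linter.unnecessarySeqFocus false

open scoped BigOperators ComplexOrder Kronecker MatrixOrder Topology Real
open Matrix

namespace Lib_helper21.QS

variable {κ : Type} [Fintype κ] [DecidableEq κ]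

/-- the two inverses as blocks -/
lemma X_eq {S T v w : Matrix κ κ ℂ} {z a b c d : ℂ}
    (hS2 : S⁻¹ * S = 1) (hT2 : T⁻¹ * T = 1) (hde : a * d - b * c ≠ 0)
    (hv : v * ((z • S⁻¹ - (a * a + c * c) • 1) * (z • T⁻¹ - (b * b + d * d) • 1)
      - ((a * b + c * d) * (a * b + c * d)) • 1) = 1)
    (hw : ((z • T⁻¹ - (b * b + d * d) • 1) * (z • S⁻¹ - (a * a + c * c) • 1)
      - ((a * b + c * d) * (a * b + c * d)) • 1) * w = 1) :
    MM S T a b c d * (z • 1 - MM S T a b c d)⁻¹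
      = XX (z • S⁻¹ - (a * a + c * c) • 1) (z • T⁻¹ - (b * b + d * d) • 1) v w a b c d := by
  have hX1 := XX_mul (a := a) (b := b) (c := c) (d := d) hS2 hT2 hv hw
  set A := z • S⁻¹ - (a * a + c * c) • (1 : Matrix κ κ ℂ) with hA
  set B := z • T⁻¹ - (b * b + d * d) • (1 : Matrix κ κ ℂ) with hB
  have hMu : IsUnit (MM S T a b c d) := MM_unit hS2 hT2 hde
  have hzM : IsUnit (z • 1 - MM S T a b c d).det := by
    have h1 : IsUnit (MM S T a b c d).det := (isUnit_iff_isUnit_det _).mp hMu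
    rw [← hX1, det_mul] at h1
    exact isUnit_of_mul_isUnit_right h1
  have e : MM S T a b c d * (z • 1 - MM S T a b c d)⁻¹ * (z • 1 - MM S T a b c d)
      = MM S T a b c d := by
    simp only [mul_assoc, nonsing_inv_mul _ hzM, mul_one]
  calc MM S T a b c d * (z • 1 - MM S T a b c d)⁻¹
      = MM S T a b c d * (z • 1 - MM S T a b c d)⁻¹
          * ((z • 1 - MM S T a b c d) * (z • 1 - MM S T a b c d)⁻¹) := by
        rw [mul_nonsing_inv _ hzM, mul_one]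
    _ = XX A B v w a b c d * (z • 1 - MM S T a b c d) * (z • 1 - MM S T a b c d)⁻¹ := by
        rw [← mul_assoc, e, hX1]
    _ = _ := by rw [mul_assoc, mul_nonsing_inv _ hzM, mul_one]

/-- the index change -/
def ee (κ : Type) : Fin 2 × κ ≃ κ ⊕ κ where
  toFun x := if x.1 = 0 then Sum.inl x.2 else Sum.inr x.2
  invFun := Sum.elim (fun x => (0, x)) (fun x => (1, x))
  left_inv := by
    rintro ⟨i, x⟩
    fin_cases i <;> simp
  right_inv := by
    rintro (x | x) <;> simp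

lemma ee_zero (x : κ) : ee κ (0, x) = Sum.inl x := rfl
lemma ee_one (x : κ) : ee κ (1, x) = Sum.inr x := rfl

/-- pull back along the index change -/
def pb (M : Matrix (κ ⊕ κ) (κ ⊕ κ) ℂ) : Matrix (Fin 2 × κ) (Fin 2 × κ) ℂ :=
  M.submatrix (ee κ) (ee κ)

lemma pb_mul (M N : Matrix (κ ⊕ κ) (κ ⊕ κ) ℂ) : pb (M * N) = pb M * pb N := by
  rw [pb, pb, pb, submatrix_mul_equiv]

lemma pb_sub (M N : Matrix (κ ⊕ κ) (κ ⊕ κ) ℂ) : pb (M - N) = pb M - pb N := rfl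

lemma pb_smul (r : ℂ) (M : Matrix (κ ⊕ κ) (κ ⊕ κ) ℂ) : pb (r • M) = r • pb M := rfl

lemma pb_one : pb (1 : Matrix (κ ⊕ κ) (κ ⊕ κ) ℂ) = 1 := by
  rw [pb, submatrix_one_equiv]

lemma pb_inv (M : Matrix (κ ⊕ κ) (κ ⊕ κ) ℂ) : pb M⁻¹ = (pb M)⁻¹ := by
  rw [pb, pb, inv_submatrix_equiv]

lemma pb_det (M : Matrix (κ ⊕ κ) (κ ⊕ κ) ℂ) : (pb M).det = M.det := by
  rw [pb, det_submatrix_equiv_self]

lemma pb_trace (M : Matrix (κ ⊕ κ) (κ ⊕ κ) ℂ) : (pb M).trace = M.trace := by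
  simp only [pb, trace, diag, submatrix_apply]
  exact Equiv.sum_comp (ee κ) (fun i => M i i)

lemma Mt_eq (α β γ : ℝ) (hα : 0 ≤ α) (hβ : 0 ≤ β) (hγ : 0 ≤ γ) (hγ1 : γ ≤ 1)
    (S T : Matrix κ κ ℂ) :
    Pool.Agent.QB.Mt α β γ S T
      = pb (MM S T ((√α : ℝ) : ℂ) ((√β * √γ : ℝ) : ℂ) 0 ((√β * √(1 - γ) : ℝ) : ℂ)) := by
  have h1 : ((√α : ℝ) : ℂ) * ((√α : ℝ) : ℂ) = (α : ℂ) := by
    rw [← Complex.ofReal_mul, Real.mul_self_sqrt hα]
  have h2 : ((√β * √γ : ℝ) : ℂ) * ((√β * √γ : ℝ) : ℂ) = (β : ℂ) * (γ : ℂ) := by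
    rw [← Complex.ofReal_mul, ← Complex.ofReal_mul]
    congr 1
    calc √β * √γ * (√β * √γ) = (√β * √β) * (√γ * √γ) := by ring
      _ = β * γ := by rw [Real.mul_self_sqrt hβ, Real.mul_self_sqrt hγ]
  have h3 : ((√β * √(1 - γ) : ℝ) : ℂ) * ((√β * √(1 - γ) : ℝ) : ℂ)
      = (β : ℂ) * ((1 - γ : ℝ) : ℂ) := by
    rw [← Complex.ofReal_mul, ← Complex.ofReal_mul]
    congr 1
    calc √β * √(1 - γ) * (√β * √(1 - γ)) = (√β * √β) * (√(1 - γ) * √(1 - γ)) := by ring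
      _ = β * (1 - γ) := by
        rw [Real.mul_self_sqrt hβ, Real.mul_self_sqrt (by linarith)]
  have h4 : ((√β * √γ : ℝ) : ℂ) * ((√β * √(1 - γ) : ℝ) : ℂ)
      = (β : ℂ) * ((√γ * √(1 - γ) : ℝ) : ℂ) := by
    rw [← Complex.ofReal_mul, ← Complex.ofReal_mul]
    congr 1
    calc √β * √γ * (√β * √(1 - γ)) = (√β * √β) * (√γ * √(1 - γ)) := by ring
      _ = β * (√γ * √(1 - γ)) := by
        rw [Real.mul_self_sqrt hβ]
  ext ⟨i, x⟩ ⟨j, y⟩
  fin_cases i <;> fin_cases j <;>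
    simp only [Pool.Agent.QB.Mt, Pool.Agent.QB.E1, Pool.Agent.QB.E2, pb, MM, submatrix_apply,
      Fin.zero_eta, Fin.mk_one, ee_zero, ee_one, fromBlocks_apply₁₁, fromBlocks_apply₁₂,
      fromBlocks_apply₂₁, fromBlocks_apply₂₂, h1, h2, h3, h4, mul_zero, zero_mul, zero_smul,
      Matrix.add_apply, Matrix.smul_apply, kroneckerMap_apply, smul_eq_mul] <;>
    simp <;> ring

lemma flp_pb (X : Matrix (κ ⊕ κ) (κ ⊕ κ) ℂ) :
    Pool.Agent.QB.flp (pb X) = pb (JT κ * X * JJ κ) := by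
  have e1 : ((!![0, -Complex.I; Complex.I, 0] : Matrix (Fin 2) (Fin 2) ℂ)
      ⊗ₖ (1 : Matrix κ κ ℂ)) = Complex.I • pb (JT κ) := by
    ext ⟨i, x⟩ ⟨j, y⟩
    fin_cases i <;> fin_cases j <;>
      simp [pb, JT, ee_zero, ee_one, kroneckerMap_apply]
  have e2 : ((!![0, -Complex.I; Complex.I, 0] : Matrix (Fin 2) (Fin 2) ℂ)
      ⊗ₖ (1 : Matrix κ κ ℂ)) = (-Complex.I) • pb (JJ κ) := by
    ext ⟨i, x⟩ ⟨j, y⟩
    fin_cases i <;> fin_cases j <;>
      simp [pb, JJ, ee_zero, ee_one, kroneckerMap_apply]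
  have e3 : Complex.I * -Complex.I = 1 := by
    rw [mul_neg, Complex.I_mul_I, neg_neg]
  calc Pool.Agent.QB.flp (pb X)
      = (Complex.I • pb (JT κ)) * pb X * ((-Complex.I) • pb (JJ κ)) := by
        rw [Pool.Agent.QB.flp]
        nth_rewrite 1 [e1]
        rw [e2]
    _ = (Complex.I * -Complex.I) • (pb (JT κ) * pb X * pb (JJ κ)) := by
        simp only [smul_mul_assoc, mul_smul_comm, smul_smul]
        rw [mul_comm]
    _ = pb (JT κ * X * JJ κ) := by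
        rw [e3, one_smul, pb_mul, pb_mul]

lemma Xt_eq {S T : Matrix κ κ ℂ} {z a b c d : ℂ}
    (hzM : IsUnit (z • 1 - MM S T a b c d).det) :
    MMt S T a b c d * (z • 1 - MMt S T a b c d)⁻¹
      = JT κ * (MM S T a b c d * (z • 1 - MM S T a b c d)⁻¹) * JJ κ := by
  have e1 : z • 1 - MMt S T a b c d = JT κ * (z • 1 - MM S T a b c d) * JJ κ := by
    rw [mul_sub, sub_mul, ← MMt_eq, mul_smul_comm, mul_one, smul_mul_assoc, JT_mul_JJ]
  have e2 : (z • 1 - MMt S T a b c d)⁻¹ = JT κ * (z • 1 - MM S T a b c d)⁻¹ * JJ κ := by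
    apply inv_eq_right_inv
    rw [e1]
    calc JT κ * (z • 1 - MM S T a b c d) * JJ κ * (JT κ * (z • 1 - MM S T a b c d)⁻¹ * JJ κ)
        = JT κ * ((z • 1 - MM S T a b c d) * ((JJ κ * JT κ) * (z • 1 - MM S T a b c d)⁻¹))
            * JJ κ := by simp only [mul_assoc]
      _ = 1 := by rw [JJ_mul_JT, one_mul, mul_nonsing_inv _ hzM, mul_one, JT_mul_JJ]
  rw [e2, MMt_eq]
  calc JT κ * MM S T a b c d * JJ κ * (JT κ * (z • 1 - MM S T a b c d)⁻¹ * JJ κ)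
      = JT κ * (MM S T a b c d * ((JJ κ * JT κ) * (z • 1 - MM S T a b c d)⁻¹)) * JJ κ := by
        simp only [mul_assoc]
    _ = _ := by rw [JJ_mul_JT, one_mul]

/-- the trace combination -/
lemma trace_comb (R : Matrix (κ ⊕ κ) (κ ⊕ κ) ℂ) (S T : Matrix κ κ ℂ) (α β g : ℂ) :
    (R * fromBlocks (α • S) 0 0 (β • T) * (R * fromBlocks (α • S) 0 0 (β • T))).trace
      - (R * fromBlocks (α • S) 0 0 (-(β • T)) * (R * fromBlocks (α • S) 0 0 (-(β • T)))).trace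
      - 4 * α * β * g * (R * fromBlocks 0 T 0 0 * (R * fromBlocks 0 T 0 0)).trace
    = 4 * α * β * (trace (R * Mal S * (R * Mbe T)) - g * trace (R * Mg T * (R * Mg T))) := by
  have h2 : fromBlocks (α • S) 0 0 (β • T) = α • Mal S + β • Mbe T := by
    rw [Mal, Mbe, fromBlocks_smul, fromBlocks_smul, fromBlocks_add]; simp
  have h1 : fromBlocks (α • S) 0 0 (-(β • T)) = α • Mal S - β • Mbe T := by
    rw [Mal, Mbe, fromBlocks_smul, fromBlocks_smul, sub_eq_add_neg, fromBlocks_neg,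
      fromBlocks_add]; simp
  have h3 : trace (R * Mbe T * (R * Mal S)) = trace (R * Mal S * (R * Mbe T)) :=
    trace_mul_comm _ _
  rw [h1, h2]
  simp only [mul_add, mul_sub, add_mul, sub_mul, mul_smul_comm, smul_mul_assoc, smul_smul,
    trace_add, trace_sub, trace_smul, smul_eq_mul, h3, Mg]
  ring

/-- `ALGStmt` -/
theorem alg : ∀ (κ : Type) [Fintype κ] [DecidableEq κ] (S T : Matrix κ κ ℂ),
    S.PosDef → T.PosDef →
    ∀ α β γ : ℝ, 0 < α → 0 < β → 0 < γ → γ < 1 → ∃ C : ℝ, 0 < C ∧ ∀ z : ℂ,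
    (z • (1 : Matrix (Fin 2 × κ) (Fin 2 × κ) ℂ) - Pool.Agent.QB.Mt α β γ S T).det ≠ 0 →
    let R := (z • (1 : Matrix (κ ⊕ κ) (κ ⊕ κ) ℂ) - Pool.Agent.QB.Maf α β (γ * (α * β)) S T)⁻¹
    let N1 : Matrix (κ ⊕ κ) (κ ⊕ κ) ℂ := Matrix.fromBlocks ((α : ℂ) • S) 0 0 (-((β : ℂ) • T))
    let N2 : Matrix (κ ⊕ κ) (κ ⊕ κ) ℂ := Matrix.fromBlocks ((α : ℂ) • S) 0 0 ((β : ℂ) • T)
    let N3 : Matrix (κ ⊕ κ) (κ ⊕ κ) ℂ := Matrix.fromBlocks 0 T 0 0
    let X := Pool.Agent.QB.Mt α β γ S T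
      * (z • (1 : Matrix (Fin 2 × κ) (Fin 2 × κ) ℂ) - Pool.Agent.QB.Mt α β γ S T)⁻¹
    (R * N2 * (R * N2)).trace - (R * N1 * (R * N1)).trace
        - 4 * (α : ℂ) * β * (γ * (α * β)) * (R * N3 * (R * N3)).trace =
      (C : ℂ) * (-((X * Pool.Agent.QB.flp X - Pool.Agent.QB.flp X * X)
        * (X * Pool.Agent.QB.flp X - Pool.Agent.QB.flp X * X)).trace) ∧
    (S * T = T * S → X * Pool.Agent.QB.flp X = Pool.Agent.QB.flp X * X) := by
  intro κ _ _ S T hSp hTp α β γ hα hβ hγ hγ1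
  refine ⟨γ / (1 - γ), div_pos hγ (by linarith), ?_⟩
  intro z hz R N1 N2 N3 X
  have hS : IsUnit S.det := (isUnit_iff_isUnit_det _).mp hSp.isUnit
  have hT : IsUnit T.det := (isUnit_iff_isUnit_det _).mp hTp.isUnit
  have hS2 : S⁻¹ * S = 1 := nonsing_inv_mul S hS
  have hT2 : T⁻¹ * T = 1 := nonsing_inv_mul T hT
  set a : ℂ := ((√α : ℝ) : ℂ) with ha
  set b : ℂ := ((√β * √γ : ℝ) : ℂ) with hb
  set d : ℂ := ((√β * √(1 - γ) : ℝ) : ℂ) with hd
  have sα : 0 < √α := Real.sqrt_pos.mpr hα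
  have sβ : 0 < √β := Real.sqrt_pos.mpr hβ
  have sγ : 0 < √γ := Real.sqrt_pos.mpr hγ
  have sγ1 : 0 < √(1 - γ) := Real.sqrt_pos.mpr (by linarith)
  have hM : Pool.Agent.QB.Mt α β γ S T = pb (MM S T a b 0 d) :=
    Mt_eq α β γ hα.le hβ.le hγ.le hγ1.le S T
  have eal : a * a + 0 * 0 = (α : ℂ) := by
    rw [ha, ← Complex.ofReal_mul, Real.mul_self_sqrt hα.le]; simp
  have ebe : b * b + d * d = (β : ℂ) := by
    rw [hb, hd, ← Complex.ofReal_mul, ← Complex.ofReal_mul, ← Complex.ofReal_add]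
    congr 1
    calc √β * √γ * (√β * √γ) + √β * √(1 - γ) * (√β * √(1 - γ))
        = (√β * √β) * (√γ * √γ + √(1 - γ) * √(1 - γ)) := by ring
      _ = β := by
        rw [Real.mul_self_sqrt hβ.le, Real.mul_self_sqrt hγ.le,
          Real.mul_self_sqrt (by linarith)]; ring
  have ega : (a * b + 0 * d) * (a * b + 0 * d) = ((γ * (α * β) : ℝ) : ℂ) := by
    rw [ha, hb, zero_mul, add_zero, ← Complex.ofReal_mul, ← Complex.ofReal_mul]
    congr 1
    calc √α * (√β * √γ) * (√α * (√β * √γ)) = (√γ * √γ) * ((√α * √α) * (√β * √β)) := by ring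
      _ = _ := by
        rw [Real.mul_self_sqrt hβ.le, Real.mul_self_sqrt hγ.le, Real.mul_self_sqrt hα.le]
  have ede : (a * d - b * 0) ^ 2 = ((α * β * (1 - γ) : ℝ) : ℂ) := by
    rw [ha, hd, mul_zero, sub_zero, ← Complex.ofReal_mul, ← Complex.ofReal_pow]
    congr 1
    calc (√α * (√β * √(1 - γ))) ^ 2 = (√α * √α) * (√β * √β) * (√(1 - γ) * √(1 - γ)) := by ring
      _ = _ := by
        rw [Real.mul_self_sqrt hβ.le, Real.mul_self_sqrt (by linarith : (0 : ℝ) ≤ 1 - γ),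
          Real.mul_self_sqrt hα.le]
  have nal : a * a + 0 * 0 ≠ 0 := by rw [eal]; exact_mod_cast hα.ne'
  have nbe : b * b + d * d ≠ 0 := by rw [ebe]; exact_mod_cast hβ.ne'
  have nga : a * b + 0 * d ≠ 0 := by
    rw [ha, hb, zero_mul, add_zero]; norm_cast; positivity
  have nde : a * d - b * 0 ≠ 0 := by
    rw [ha, hd, mul_zero, sub_zero]; norm_cast; positivity
  have hMaf : Pool.Agent.QB.Maf α β (γ * (α * β)) S T
      = Mpp S T (a * a + 0 * 0) (b * b + d * d) ((a * b + 0 * d) * (a * b + 0 * d)) := by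
    rw [eal, ebe, ega]; rfl
  have hzMd : (z • 1 - MM S T a b 0 d).det ≠ 0 := by
    have e : z • (1 : Matrix (Fin 2 × κ) (Fin 2 × κ) ℂ) - Pool.Agent.QB.Mt α β γ S T
        = pb (z • 1 - MM S T a b 0 d) := by
      rw [hM, pb_sub, pb_smul, pb_one]
    rw [e, pb_det] at hz
    exact hz
  have hzM : IsUnit (z • 1 - MM S T a b 0 d).det := isUnit_iff_ne_zero.mpr hzMd
  have hzP : IsUnit (z • 1 - Mpp S T (a * a + 0 * 0) (b * b + d * d)
      ((a * b + 0 * d) * (a * b + 0 * d))) := by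
    rw [isUnit_iff_isUnit_det, isUnit_iff_ne_zero]
    have e1 := congrArg (Polynomial.eval z)
      (charpoly_Mpp (S := S) (T := T) (a := a) (b := b) (c := 0) (d := d) nga)
    rw [eval_charpoly, eval_charpoly] at e1
    have e2 : ∀ N : Matrix (κ ⊕ κ) (κ ⊕ κ) ℂ, scalar (κ ⊕ κ) z - N = z • 1 - N := by
      intro N; rw [smul_one_eq_diagonal]; rfl
    rw [e2, e2] at e1
    rw [e1]; exact hzMd
  have hX : X = pb (MM S T a b 0 d * (z • 1 - MM S T a b 0 d)⁻¹) := by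
    simp only [X]
    rw [hM, pb_mul, pb_inv, pb_sub, pb_smul, pb_one]
  have hXt : Pool.Agent.QB.flp X = pb (MMt S T a b 0 d * (z • 1 - MMt S T a b 0 d)⁻¹) := by
    rw [hX, flp_pb, Xt_eq hzM]
  constructor
  · have key := box_identity (z := z) (a := a) (b := b) (c := 0) (d := d) hS hT nal nbe nga nde hzP
    simp only at key
    simp only [R, N1, N2, N3]
    rw [trace_comb]
    rw [hMaf, hXt, hX, ← pb_mul, ← pb_mul, ← pb_sub, ← pb_mul, pb_trace]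
    have ega' : (γ : ℂ) * ((α : ℂ) * (β : ℂ)) = (a * b + 0 * d) * (a * b + 0 * d) := by
      rw [ega]; push_cast; ring
    rw [ega', key, ega, ede, eal, ebe]
    have hα' : (α : ℂ) ≠ 0 := by exact_mod_cast hα.ne'
    have hβ' : (β : ℂ) ≠ 0 := by exact_mod_cast hβ.ne'
    have hγ' : (1 - (γ : ℂ)) ≠ 0 := by
      have : (1 - γ : ℝ) ≠ 0 := by linarith
      exact_mod_cast this
    push_cast
    field_simp
  · intro hcomm
    obtain ⟨v, w, hv, hw⟩ := exists_nu hS2 hT2 (mul_ne_zero nga nga) hzP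
    have hXe := X_eq hS2 hT2 nde hv hw
    have hc : S⁻¹ * T⁻¹ = T⁻¹ * S⁻¹ := by
      rw [← Matrix.mul_inv_rev, ← Matrix.mul_inv_rev, hcomm]
    have hvw : v = w := by
      have hAB : (z • S⁻¹ - (a * a + 0 * 0) • (1 : Matrix κ κ ℂ))
            * (z • T⁻¹ - (b * b + d * d) • 1)
          = (z • T⁻¹ - (b * b + d * d) • 1) * (z • S⁻¹ - (a * a + 0 * 0) • 1) := by
        simp only [mul_sub, sub_mul, mul_smul_comm, smul_mul_assoc, mul_one, one_mul, hc]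
        module
      rw [hAB] at hv
      exact left_inv_eq_right_inv hv hw
    have hc1 := comm_eq hv hw
    rw [hXt, hX, Xt_eq hzM, hXe, ← pb_mul, ← pb_mul]
    congr 1
    rw [← sub_eq_zero, hc1, hvw]
    simp

end Lib_helper21.QS
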