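import Mathlib

/-!
# QS / ALG (helper21)

Algebraic identities behind the box operator of `H(al, be, g) = Tr (f₁f₁* ⊗ S + f₂f₂* ⊗ T)^p`.

`A = z S⁻¹ - al`, `B = z T⁻¹ - be`, `nu = (A B - g)⁻¹`, `nu~ = (B A - g)⁻¹`.
-/

open Matrix

set_option linter.unusedSimpArgs false
set_option linter.unusedSectionVars false
set_option linter.unnecessarySeqFocus false

namespace Lib_helper21.QS

variable {n : Type*} [Fintype n] [DecidableEq n]

/-! ## Abstract part: `nu` and `nu~` -/

section Abstract

variable {A B v w : Matrix n n ℂ} {g : ℂ}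

/-- `nu A = A nu~`. -/
lemma nuA (h1 : v * (A * B - g • 1) = 1) (h2 : (B * A - g • 1) * w = 1) : v * A = A * w := by
  have e : (A * B - g • 1) * A = A * (B * A - g • 1) := by
    simp only [sub_mul, mul_sub, smul_mul_assoc, mul_smul_comm, one_mul, mul_one, mul_assoc]
  calc v * A = v * A * ((B * A - g • 1) * w) := by rw [h2, mul_one]
    _ = v * (A * (B * A - g • 1)) * w := by simp only [mul_assoc]
    _ = v * ((A * B - g • 1) * A) * w := by rw [e]
    _ = (v * (A * B - g • 1)) * (A * w) := by simp only [mul_assoc]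
    _ = A * w := by rw [h1, one_mul]

/-- `g nu~ = B nu A - 1`. -/
lemma g_nut (h1 : v * (A * B - g • 1) = 1) (h2 : (B * A - g • 1) * w = 1) :
    g • w = B * v * A - 1 := by
  have e := nuA h1 h2
  rw [mul_assoc, e, ← mul_assoc]
  have h3 : B * A * w - g • w = 1 := by
    rw [← h2]; simp only [sub_mul, smul_mul_assoc, one_mul]
  rw [← h3]; abel

/-- `g nu = nu A B - 1`. -/
lemma g_nu (h1 : v * (A * B - g • 1) = 1) : g • v = v * (A * B) - 1 := by
  have h3 : v * (A * B) - g • v = 1 := by
    rw [← h1]; simp only [mul_sub, mul_smul_comm, mul_one]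
  rw [← h3]; abel

/-- `Tr nu^2 = Tr nu~^2` (for `g ≠ 0`). -/
lemma trace_sq_eq (hg : g ≠ 0) (h1 : v * (A * B - g • 1) = 1) (h2 : (B * A - g • 1) * w = 1) :
    trace (w * w) = trace (v * v) := by
  have e1 : (g • w) * (g • w) = B * v * A * (B * v * A) - B * v * A - B * v * A + 1 := by
    rw [g_nut h1 h2]; noncomm_ring
  have e2 : (g • v) * (g • v)
      = v * (A * B) * (v * (A * B)) - v * (A * B) - v * (A * B) + 1 := by
    rw [g_nu h1]; noncomm_ring
  have t1 : trace (B * v * A * (B * v * A)) = trace (v * (A * B) * (v * (A * B))) := by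
    calc trace (B * v * A * (B * v * A)) = trace (B * (v * A * (B * v * A))) := by
          simp only [mul_assoc]
      _ = trace (v * A * (B * v * A) * B) := trace_mul_comm _ _
      _ = _ := by simp only [mul_assoc]
  have t2 : trace (B * v * A) = trace (v * (A * B)) := by
    rw [mul_assoc, trace_mul_comm, mul_assoc]
  have t3 : trace ((g • w) * (g • w)) = trace ((g • v) * (g • v)) := by
    rw [e1, e2]; simp only [trace_add, trace_sub, t1, t2]
  have t4 : g * g * trace (w * w) = g * g * trace (v * v) := by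
    have := t3
    simp only [smul_mul_assoc, mul_smul_comm, trace_smul, smul_eq_mul] at this
    rw [mul_assoc, mul_assoc]; exact this
  exact mul_left_cancel₀ (mul_ne_zero hg hg) t4

/-- `Tr (nu~ - nu)^2 = 2 (Tr nu^2 - Tr nu nu~)`. -/
lemma trace_sub_sq (hg : g ≠ 0) (h1 : v * (A * B - g • 1) = 1) (h2 : (B * A - g • 1) * w = 1) :
    trace ((w - v) * (w - v)) = 2 * (trace (v * v) - trace (v * w)) := by
  have e : (w - v) * (w - v) = w * w - w * v - v * w + v * v := by noncomm_ring
  rw [e]
  simp only [trace_add, trace_sub, trace_sq_eq hg h1 h2, trace_mul_comm w v]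
  ring

end Abstract

/-! ## (1): the resolvent of `M'' = [[al S, g T], [S, be T]]` -/

section One

/-- the affine matrix `M''` -/
noncomputable def Mpp (S T : Matrix n n ℂ) (al be g : ℂ) : Matrix (n ⊕ n) (n ⊕ n) ℂ :=
  fromBlocks (al • S) (g • T) S (be • T)

omit [Fintype n] in
lemma smul_one_sub_fromBlocks (z : ℂ) (P Q R S : Matrix n n ℂ) :
    z • (1 : Matrix (n ⊕ n) (n ⊕ n) ℂ) - fromBlocks P Q R S
      = fromBlocks (z • 1 - P) (-Q) (-R) (z • 1 - S) := by
  rw [← fromBlocks_one, fromBlocks_smul, sub_eq_add_neg, fromBlocks_neg, fromBlocks_add]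
  simp [sub_eq_add_neg]

omit [DecidableEq n] in
lemma trace_fromBlocks' (P Q R S : Matrix n n ℂ) :
    trace (fromBlocks P Q R S) = trace P + trace S := by
  simp [trace, Fintype.sum_sum_type]

variable {S T S' T' v w : Matrix n n ℂ} {z al be g : ℂ}

/-- the resolvent of `M''` -/
theorem resolvent_Mpp (hS : S * S' = 1) (hT : T * T' = 1)
    (hv : ((z • S' - al • 1) * (z • T' - be • 1) - g • 1) * v = 1)
    (hw : ((z • T' - be • 1) * (z • S' - al • 1) - g • 1) * w = 1) :
    (z • 1 - Mpp S T al be g)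
      * fromBlocks (S' * ((z • T' - be • 1) * v)) (g • (S' * w)) (T' * v)
          (T' * ((z • S' - al • 1) * w)) = 1 := by
  have eS : (z • 1 - al • S) * S' = z • S' - al • 1 := by
    simp only [sub_mul, smul_mul_assoc, one_mul, hS]
  have eT : (z • 1 - be • T) * T' = z • T' - be • 1 := by
    simp only [sub_mul, smul_mul_assoc, one_mul, hT]
  set A := z • S' - al • (1 : Matrix n n ℂ) with hA
  set B := z • T' - be • (1 : Matrix n n ℂ) with hB
  have k1 : A * (B * v) - g • v = 1 := by
    rw [← hv]; simp only [sub_mul, smul_mul_assoc, one_mul, mul_assoc]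
  have k2 : B * (A * w) - g • w = 1 := by
    rw [← hw]; simp only [sub_mul, smul_mul_assoc, one_mul, mul_assoc]
  rw [Mpp, smul_one_sub_fromBlocks, fromBlocks_multiply, ← fromBlocks_one]
  congr 1
  · calc (z • 1 - al • S) * (S' * (B * v)) + -(g • T) * (T' * v)
        = ((z • 1 - al • S) * S') * (B * v) - g • ((T * T') * v) := by
          simp only [mul_assoc, neg_mul, smul_mul_assoc, sub_eq_add_neg]
      _ = 1 := by rw [eS, hT, one_mul, k1]
  · calc (z • 1 - al • S) * (g • (S' * w)) + -(g • T) * (T' * (A * w))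
        = g • (((z • 1 - al • S) * S') * w) - g • ((T * T') * (A * w)) := by
          simp only [mul_assoc, neg_mul, smul_mul_assoc, mul_smul_comm, sub_eq_add_neg]
      _ = 0 := by rw [eS, hT, one_mul, sub_self]
  · calc -S * (S' * (B * v)) + (z • 1 - be • T) * (T' * v)
        = -((S * S') * (B * v)) + ((z • 1 - be • T) * T') * v := by
          simp only [mul_assoc, neg_mul]
      _ = 0 := by rw [hS, eT, one_mul, neg_add_cancel]
  · calc -S * (g • (S' * w)) + (z • 1 - be • T) * (T' * (A * w))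
        = -(g • ((S * S') * w)) + ((z • 1 - be • T) * T') * (A * w) := by
          simp only [mul_assoc, neg_mul, mul_smul_comm, smul_neg]
      _ = 1 := by rw [hS, eT, one_mul, neg_add_eq_sub, k2]

/-- the three derivatives of `M''` (it is affine in each of `al`, `g`, `be`) -/
noncomputable def Mal (S : Matrix n n ℂ) : Matrix (n ⊕ n) (n ⊕ n) ℂ := fromBlocks S 0 0 0
noncomputable def Mbe (T : Matrix n n ℂ) : Matrix (n ⊕ n) (n ⊕ n) ℂ := fromBlocks 0 0 0 T
noncomputable def Mg (T : Matrix n n ℂ) : Matrix (n ⊕ n) (n ⊕ n) ℂ := fromBlocks 0 T 0 0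

/-- `Tr R M_al R M_be = g Tr nu nu~` -/
theorem trace_al_be (hS : S' * S = 1) (hT : T' * T = 1) :
    let R := fromBlocks (S' * ((z • T' - be • 1) * v)) (g • (S' * w)) (T' * v)
          (T' * ((z • S' - al • 1) * w))
    trace (R * Mal S * (R * Mbe T)) = g * trace (v * w) := by
  intro R
  simp only [R, Mal, Mbe, fromBlocks_multiply, mul_zero, add_zero, zero_add, zero_mul,
    trace_fromBlocks', trace_zero]
  calc trace (T' * v * S * (g • (S' * w) * T))
      = g * trace ((T' * v) * (S * (S' * w) * T)) := by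
        simp only [mul_assoc, smul_mul_assoc, mul_smul_comm, trace_smul, smul_eq_mul]
    _ = g * trace (v * w) := by
        rw [← mul_assoc S, mul_eq_one_comm.mp hS, one_mul, mul_assoc, trace_mul_comm]
        simp only [mul_assoc, mul_eq_one_comm.mp hT, mul_one]

/-- `Tr (R M_g)^2 = Tr nu^2` -/
theorem trace_g_g (hT : T' * T = 1) :
    let R := fromBlocks (S' * ((z • T' - be • 1) * v)) (g • (S' * w)) (T' * v)
          (T' * ((z • S' - al • 1) * w))
    trace (R * Mg T * (R * Mg T)) = trace (v * v) := by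
  intro R
  simp only [R, Mg, fromBlocks_multiply, mul_zero, add_zero, zero_add, zero_mul,
    trace_fromBlocks', trace_zero]
  calc trace (T' * v * T * (T' * v * T))
      = trace (T' * (v * (T * T') * v * T)) := by
        simp only [mul_assoc]
    _ = trace (v * v) := by
        rw [mul_eq_one_comm.mp hT, mul_one, trace_mul_comm]
        simp only [mul_assoc, mul_eq_one_comm.mp hT, mul_one]

end One

/-! ## (2): the commutator of `X = M (z - M)⁻¹` and its `sigma_y` flip -/

section Two

variable {S T S' T' v w : Matrix n n ℂ} {z al be ga g a b c d : ℂ}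

/-- `F = [[a, b], [c, d]] ⊗ 1` -/
noncomputable def FF (n : Type*) [DecidableEq n] (a b c d : ℂ) : Matrix (n ⊕ n) (n ⊕ n) ℂ :=
  fromBlocks (a • 1) (b • 1) (c • 1) (d • 1)

/-- `M = F (S ⊕ T) Fᵀ` -/
noncomputable def MM (S T : Matrix n n ℂ) (a b c d : ℂ) : Matrix (n ⊕ n) (n ⊕ n) ℂ :=
  fromBlocks ((a * a) • S + (b * b) • T) ((a * c) • S + (b * d) • T)
    ((a * c) • S + (b * d) • T) ((c * c) • S + (d * d) • T)

/-- `M~ = sigma_y M sigma_y` -/
noncomputable def MMt (S T : Matrix n n ℂ) (a b c d : ℂ) : Matrix (n ⊕ n) (n ⊕ n) ℂ :=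
  fromBlocks ((c * c) • S + (d * d) • T) (-((a * c) • S + (b * d) • T))
    (-((a * c) • S + (b * d) • T)) ((a * a) • S + (b * b) • T)

/-- `K = [[A, -ga], [-ga, B]]⁻¹` -/
noncomputable def KK (A B v w : Matrix n n ℂ) (ga : ℂ) : Matrix (n ⊕ n) (n ⊕ n) ℂ :=
  fromBlocks (B * v) (ga • w) (ga • v) (A * w)

/-- `J` -/
noncomputable def JJ (n : Type*) [DecidableEq n] : Matrix (n ⊕ n) (n ⊕ n) ℂ :=
  fromBlocks 0 1 (-1) 0

/-- `Jᵀ` -/
noncomputable def JT (n : Type*) [DecidableEq n] : Matrix (n ⊕ n) (n ⊕ n) ℂ :=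
  fromBlocks 0 (-1) 1 0

lemma JJ_mul_JT : JJ n * JT n = 1 := by
  rw [JJ, JT, fromBlocks_multiply, ← fromBlocks_one]; simp

lemma JT_mul_JJ : JT n * JJ n = 1 := by
  rw [JJ, JT, fromBlocks_multiply, ← fromBlocks_one]; simp

/-- `X = F K Fᵀ` -/
noncomputable def XX (A B v w : Matrix n n ℂ) (a b c d : ℂ) : Matrix (n ⊕ n) (n ⊕ n) ℂ :=
  FF n a b c d * KK A B v w (a * b + c * d) * FF n a c b d

lemma MM_eq : MM S T a b c d = FF n a b c d * fromBlocks S 0 0 T * FF n a c b d := by
  simp only [MM, FF, fromBlocks_multiply, mul_zero, add_zero, zero_add, smul_mul_assoc,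
    mul_smul_comm, mul_one, one_mul, smul_smul]
  congr 1 <;> module

lemma MMt_eq : MMt S T a b c d = JT n * MM S T a b c d * JJ n := by
  simp only [MMt, MM, JT, JJ, fromBlocks_multiply, mul_zero, add_zero, zero_add, zero_mul,
    mul_neg, neg_mul, mul_one, one_mul]
  congr 1
  simp

/-- `Fᵀ (z - M) = (z - G D) Fᵀ` -/
lemma Ft_mul : FF n a c b d * (z • 1 - MM S T a b c d)
    = fromBlocks (z • 1 - (a * a + c * c) • S) (-((a * b + c * d) • T))
        (-((a * b + c * d) • S)) (z • 1 - (b * b + d * d) • T) * FF n a c b d := by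
  rw [MM, smul_one_sub_fromBlocks]
  simp only [FF, fromBlocks_multiply, smul_mul_assoc, mul_smul_comm, mul_one, one_mul]
  congr 1 <;> module

/-- `K (z - G D) = D` -/
lemma KK_mul (hS : S' * S = 1) (hT : T' * T = 1)
    (hv : v * ((z • S' - al • 1) * (z • T' - be • 1) - (ga * ga) • 1) = 1)
    (hw : ((z • T' - be • 1) * (z • S' - al • 1) - (ga * ga) • 1) * w = 1) :
    KK (z • S' - al • 1) (z • T' - be • 1) v w ga
      * fromBlocks (z • 1 - al • S) (-(ga • T)) (-(ga • S)) (z • 1 - be • T)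
      = fromBlocks S 0 0 T := by
  have eS : (z • S' - al • 1) * S = z • 1 - al • S := by
    simp only [sub_mul, smul_mul_assoc, one_mul, hS]
  have eT : (z • T' - be • 1) * T = z • 1 - be • T := by
    simp only [sub_mul, smul_mul_assoc, one_mul, hT]
  rw [← eS, ← eT]
  set A := z • S' - al • (1 : Matrix n n ℂ) with hA
  set B := z • T' - be • (1 : Matrix n n ℂ) with hB
  have hv' : (A * B - (ga * ga) • 1) * v = 1 := mul_eq_one_comm.mp hv
  have hw' : w * (B * A - (ga * ga) • 1) = 1 := mul_eq_one_comm.mp hw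
  have r2 : v * A = A * w := nuA hv hw
  have r1 : w * B = B * v := nuA hw' hv'
  have r3 : B * v * A = 1 + (ga * ga) • w := by rw [g_nut hv hw]; abel
  have r4 : A * w * B = 1 + (ga * ga) • v := by rw [g_nut hw' hv']; abel
  rw [KK, fromBlocks_multiply]
  congr 1
  · calc B * v * (A * S) + ga • w * -(ga • S)
        = B * v * A * S - (ga * ga) • w * S := by
          simp only [mul_assoc, mul_neg, smul_mul_assoc, mul_smul_comm, smul_smul, sub_eq_add_neg]
      _ = S := by rw [r3, add_mul, one_mul, add_sub_cancel_right]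
  · calc B * v * -(ga • T) + ga • w * (B * T)
        = ga • (w * B * T) - ga • (B * v * T) := by
          simp only [mul_assoc, mul_neg, smul_mul_assoc, mul_smul_comm]; abel
      _ = 0 := by rw [r1, sub_self]
  · calc ga • v * (A * S) + A * w * -(ga • S)
        = ga • (v * A * S) - ga • (A * w * S) := by
          simp only [mul_assoc, mul_neg, smul_mul_assoc, mul_smul_comm]; abel
      _ = 0 := by rw [r2, sub_self]
  · calc ga • v * -(ga • T) + A * w * (B * T)
        = A * w * B * T - (ga * ga) • v * T := by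
          simp only [mul_assoc, mul_neg, smul_mul_assoc, mul_smul_comm, smul_smul]; abel
      _ = T := by rw [r4, add_mul, one_mul, add_sub_cancel_right]

/-- `X (z - M) = M` -/
lemma XX_mul (hS : S' * S = 1) (hT : T' * T = 1)
    (hv : v * ((z • S' - (a * a + c * c) • 1) * (z • T' - (b * b + d * d) • 1)
      - ((a * b + c * d) * (a * b + c * d)) • 1) = 1)
    (hw : ((z • T' - (b * b + d * d) • 1) * (z • S' - (a * a + c * c) • 1)
      - ((a * b + c * d) * (a * b + c * d)) • 1) * w = 1) :
    XX (z • S' - (a * a + c * c) • 1) (z • T' - (b * b + d * d) • 1) v w a b c d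
      * (z • 1 - MM S T a b c d) = MM S T a b c d := by
  rw [XX, mul_assoc, Ft_mul, mul_assoc, ← mul_assoc (KK _ _ _ _ _), KK_mul hS hT hv hw,
    ← mul_assoc, ← MM_eq]

/-- `Fᵀ Jᵀ F = (a d - b c) Jᵀ` -/
lemma F_JT_F : FF n a c b d * JT n * FF n a b c d = (a * d - b * c) • JT n := by
  simp only [FF, JT, fromBlocks_multiply, fromBlocks_smul, mul_zero, add_zero, zero_add, zero_mul,
    mul_neg, neg_mul, mul_one, one_mul, smul_mul_assoc, mul_smul_comm, smul_smul, smul_neg,
    smul_zero]
  congr 1 <;> module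

/-- `Fᵀ J F = (a d - b c) J` -/
lemma F_JJ_F : FF n a c b d * JJ n * FF n a b c d = (a * d - b * c) • JJ n := by
  simp only [FF, JJ, fromBlocks_multiply, fromBlocks_smul, mul_zero, add_zero, zero_add, zero_mul,
    mul_neg, neg_mul, mul_one, one_mul, smul_mul_assoc, mul_smul_comm, smul_smul, smul_neg,
    smul_zero]
  congr 1 <;> module

section

variable {A B : Matrix n n ℂ}

/-- `K Jᵀ K = dg(nu~, nu) Jᵀ` -/
lemma K_JT_K (hv : v * (A * B - (ga * ga) • 1) = 1) (hw : (B * A - (ga * ga) • 1) * w = 1) :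
    KK A B v w ga * JT n * KK A B v w ga = fromBlocks 0 (-w) v 0 := by
  have hv' : (A * B - (ga * ga) • 1) * v = 1 := mul_eq_one_comm.mp hv
  have hw' : w * (B * A - (ga * ga) • 1) = 1 := mul_eq_one_comm.mp hw
  have r2 : v * A = A * w := nuA hv hw
  have r1 : w * B = B * v := nuA hw' hv'
  have r3 : B * v * A = 1 + (ga * ga) • w := by rw [g_nut hv hw]; abel
  have r4 : A * w * B = 1 + (ga * ga) • v := by rw [g_nut hw' hv']; abel
  rw [KK, JT, fromBlocks_multiply, fromBlocks_multiply]
  simp only [mul_zero, zero_add, add_zero, mul_one, mul_neg]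
  congr 1
  · calc ga • w * (B * v) + -(B * v) * ga • v
        = ga • (w * B * v) - ga • (B * v * v) := by
          simp only [mul_assoc, neg_mul, smul_mul_assoc, mul_smul_comm, smul_neg]; abel
      _ = 0 := by rw [r1, sub_self]
  · calc ga • w * ga • w + -(B * v) * (A * w)
        = (ga * ga) • w * w - B * v * A * w := by
          simp only [mul_assoc, neg_mul, smul_mul_assoc, mul_smul_comm, smul_smul]; abel
      _ = -w := by rw [r3, add_mul, one_mul]; abel
  · calc A * w * (B * v) + -(ga • v) * ga • v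
        = A * w * B * v - (ga * ga) • v * v := by
          simp only [mul_assoc, neg_mul, smul_mul_assoc, mul_smul_comm, smul_smul, smul_neg]; abel
      _ = v := by rw [r4, add_mul, one_mul]; abel
  · calc A * w * ga • w + -(ga • v) * (A * w)
        = ga • (A * w * w) - ga • (v * A * w) := by
          simp only [mul_assoc, neg_mul, smul_mul_assoc, mul_smul_comm]; abel
      _ = 0 := by rw [r2, sub_self]

lemma JJ_eq_neg : JJ n = - JT n := by
  rw [JJ, JT, fromBlocks_neg]; simp

/-- `X X~` where `X~ = Jᵀ X J` -/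
lemma X_Xt (hv : v * (A * B - ((a * b + c * d) * (a * b + c * d)) • 1) = 1)
    (hw : (B * A - ((a * b + c * d) * (a * b + c * d)) • 1) * w = 1) :
    XX A B v w a b c d * (JT n * XX A B v w a b c d * JJ n)
      = (a * d - b * c) • fromBlocks ((a * d) • w - (b * c) • v) (-((a * b) • w) + (a * b) • v)
          ((c * d) • w - (c * d) • v) (-((b * c) • w) + (a * d) • v) := by
  have e : XX A B v w a b c d * (JT n * XX A B v w a b c d * JJ n)
      = (a * d - b * c) • (FF n a b c d * (KK A B v w (a * b + c * d) * JT n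
          * KK A B v w (a * b + c * d)) * (FF n a c b d * JJ n)) := by
    calc XX A B v w a b c d * (JT n * XX A B v w a b c d * JJ n)
        = FF n a b c d * KK A B v w (a * b + c * d) * (FF n a c b d * JT n * FF n a b c d)
            * KK A B v w (a * b + c * d) * (FF n a c b d * JJ n) := by
          simp only [XX, mul_assoc]
      _ = _ := by
          rw [F_JT_F]; simp only [mul_assoc, smul_mul_assoc, mul_smul_comm]
  rw [e, K_JT_K hv hw]
  congr 1
  simp only [FF, JJ, fromBlocks_multiply, mul_zero, add_zero, zero_add, zero_mul,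
    mul_neg, neg_mul, mul_one, one_mul, smul_mul_assoc, mul_smul_comm, smul_smul, smul_neg,
    smul_zero, smul_add, smul_sub, neg_neg]
  congr 1 <;> module

/-- `X~ X` where `X~ = Jᵀ X J` -/
lemma Xt_X (hv : v * (A * B - ((a * b + c * d) * (a * b + c * d)) • 1) = 1)
    (hw : (B * A - ((a * b + c * d) * (a * b + c * d)) • 1) * w = 1) :
    (JT n * XX A B v w a b c d * JJ n) * XX A B v w a b c d
      = (a * d - b * c) • fromBlocks ((a * d) • v - (b * c) • w) ((c * d) • v - (c * d) • w)
          (-((a * b) • v) + (a * b) • w) (-((b * c) • v) + (a * d) • w) := by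
  have e : (JT n * XX A B v w a b c d * JJ n) * XX A B v w a b c d
      = (a * d - b * c) • (JT n * FF n a b c d * (-(KK A B v w (a * b + c * d) * JT n
          * KK A B v w (a * b + c * d))) * FF n a c b d) := by
    calc (JT n * XX A B v w a b c d * JJ n) * XX A B v w a b c d
        = JT n * FF n a b c d * KK A B v w (a * b + c * d)
            * (FF n a c b d * JJ n * FF n a b c d)
            * KK A B v w (a * b + c * d) * FF n a c b d := by
          simp only [XX, mul_assoc]
      _ = _ := by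
          rw [F_JJ_F, JJ_eq_neg]
          simp only [mul_assoc, smul_mul_assoc, mul_smul_comm, neg_mul, mul_neg, smul_neg]
  rw [e, K_JT_K hv hw]
  congr 1
  simp only [FF, JT, fromBlocks_multiply, fromBlocks_neg, mul_zero, add_zero, zero_add, zero_mul,
    mul_neg, neg_mul, mul_one, one_mul, smul_mul_assoc, mul_smul_comm, smul_smul, smul_neg,
    smul_zero, smul_add, smul_sub, neg_neg, neg_zero]
  congr 1 <;> module

/-- the commutator `[X, X~] = (a d - b c) W ⊗ (nu~ - nu)` -/
lemma comm_eq (hv : v * (A * B - ((a * b + c * d) * (a * b + c * d)) • 1) = 1)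
    (hw : (B * A - ((a * b + c * d) * (a * b + c * d)) • 1) * w = 1) :
    XX A B v w a b c d * (JT n * XX A B v w a b c d * JJ n)
      - (JT n * XX A B v w a b c d * JJ n) * XX A B v w a b c d
      = (a * d - b * c) • fromBlocks ((a * d + b * c) • (w - v)) ((c * d - a * b) • (w - v))
          ((c * d - a * b) • (w - v)) (-((a * d + b * c) • (w - v))) := by
  rw [X_Xt hv hw, Xt_X hv hw, ← smul_sub]
  congr 1
  rw [sub_eq_add_neg, fromBlocks_neg, fromBlocks_add]
  congr 1 <;> module

/-- `- Tr [X, X~]^2 = 4 al be (al be - g) (Tr nu nu~ - Tr nu^2)` -/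
theorem trace_comm_sq (hga : a * b + c * d ≠ 0)
    (hv : v * (A * B - ((a * b + c * d) * (a * b + c * d)) • 1) = 1)
    (hw : (B * A - ((a * b + c * d) * (a * b + c * d)) • 1) * w = 1) :
    - trace ((XX A B v w a b c d * (JT n * XX A B v w a b c d * JJ n)
        - (JT n * XX A B v w a b c d * JJ n) * XX A B v w a b c d)
      * (XX A B v w a b c d * (JT n * XX A B v w a b c d * JJ n)
        - (JT n * XX A B v w a b c d * JJ n) * XX A B v w a b c d))
      = 4 * (a * a + c * c) * (b * b + d * d) * (a * d - b * c) ^ 2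
          * (trace (v * w) - trace (v * v)) := by
  rw [comm_eq hv hw]
  have key := trace_sub_sq (mul_ne_zero hga hga) hv hw
  rw [smul_mul_smul_comm, fromBlocks_multiply, trace_smul, trace_fromBlocks']
  simp only [smul_mul_assoc, mul_smul_comm, smul_smul, neg_mul, mul_neg, smul_neg, neg_neg,
    trace_add, trace_smul, smul_eq_mul, key]
  ring

end

end Two

/-! ## The final form, for `Matrix` inverses -/

section Final

variable {S T : Matrix n n ℂ} {z a b c d : ℂ}

lemma isUnit_nu {A B : Matrix n n ℂ} {g : ℂ} {P : Matrix (n ⊕ n) (n ⊕ n) ℂ}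
    (h : fromBlocks A (-(g • 1)) (-1) B * P = 1) :
    (A * B - g • 1) * P.toBlocks₂₁ = 1 := by
  have e : fromBlocks 1 A 0 1 * fromBlocks A (-(g • 1)) (-1) B
      = fromBlocks 0 (A * B - g • 1) (-1) B := by
    rw [fromBlocks_multiply]
    congr 1 <;> simp [sub_eq_add_neg, add_comm]
  have e2 : fromBlocks 0 (A * B - g • 1) (-1) B * P = fromBlocks 1 A 0 1 := by
    rw [← e, mul_assoc, h, mul_one]
  rw [← fromBlocks_toBlocks P, fromBlocks_multiply] at e2
  have := (fromBlocks_inj.mp e2).1
  simpa using this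

lemma Mpp_factor (hS : S⁻¹ * S = 1) (hT : T⁻¹ * T = 1) (al be g : ℂ) :
    z • 1 - Mpp S T al be g
      = fromBlocks (z • S⁻¹ - al • 1) (-(g • 1)) (-1) (z • T⁻¹ - be • 1) * fromBlocks S 0 0 T := by
  rw [Mpp, smul_one_sub_fromBlocks, fromBlocks_multiply]
  congr 1
  · simp only [sub_mul, smul_mul_assoc, one_mul, hS, mul_zero, add_zero]
  · simp only [mul_zero, zero_add, neg_mul, smul_mul_assoc, one_mul]
  · simp only [mul_zero, add_zero, neg_mul, one_mul]
  · simp only [sub_mul, smul_mul_assoc, one_mul, hT, mul_zero, zero_add]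

/-- existence of `nu`, `nu~` for `z` off the spectrum of `M''` -/
lemma exists_nu (hS : S⁻¹ * S = 1) (hT : T⁻¹ * T = 1) {al be g : ℂ} (hg : g ≠ 0)
    (hz : IsUnit (z • 1 - Mpp S T al be g)) :
    ∃ v w : Matrix n n ℂ,
      v * ((z • S⁻¹ - al • 1) * (z • T⁻¹ - be • 1) - g • 1) = 1
      ∧ ((z • T⁻¹ - be • 1) * (z • S⁻¹ - al • 1) - g • 1) * w = 1 := by
  obtain ⟨u, hu⟩ := hz
  have h1 : fromBlocks (z • S⁻¹ - al • 1) (-(g • 1)) (-1) (z • T⁻¹ - be • 1)
      * (fromBlocks S 0 0 T * (↑u⁻¹ : Matrix (n ⊕ n) (n ⊕ n) ℂ)) = 1 := by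
    rw [← mul_assoc, ← Mpp_factor hS hT, ← hu, Units.mul_inv]
  set A := z • S⁻¹ - al • (1 : Matrix n n ℂ) with hA
  set B := z • T⁻¹ - be • (1 : Matrix n n ℂ) with hB
  have h2 := isUnit_nu h1
  set v := (fromBlocks S 0 0 T * (↑u⁻¹ : Matrix (n ⊕ n) (n ⊕ n) ℂ)).toBlocks₂₁ with hv
  have h3 : v * (A * B - g • 1) = 1 := mul_eq_one_comm.mp h2
  refine ⟨v, g⁻¹ • (B * v * A - 1), h3, ?_⟩
  have e : (B * A - g • 1) * (B * v * A - 1) = g • 1 := by
    calc (B * A - g • 1) * (B * v * A - 1)
        = B * ((A * B - g • 1) * v) * A - B * A + g • 1 := by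
          simp only [mul_sub, sub_mul, mul_assoc, smul_mul_assoc, mul_smul_comm, one_mul, mul_one]
          abel
      _ = g • 1 := by rw [h2, mul_one, sub_self, zero_add]
  rw [mul_smul_comm, e, smul_smul, inv_mul_cancel₀ hg, one_smul]

lemma FF_unit (h : a * d - b * c ≠ 0) : IsUnit (FF n a b c d) := by
  have e : FF n a b c d * ((a * d - b * c)⁻¹ • FF n d (-b) (-c) a) = 1 := by
    have e1 : FF n a b c d * FF n d (-b) (-c) a = (a * d - b * c) • 1 := by
      rw [FF, FF, fromBlocks_multiply, ← fromBlocks_one, fromBlocks_smul]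
      simp only [smul_mul_assoc, mul_smul_comm, mul_one, one_mul, smul_smul, smul_zero]
      congr 1 <;> module
    rw [mul_smul_comm, e1, smul_smul, inv_mul_cancel₀ h, one_smul]
  exact IsUnit.of_mul_eq_one _ e

lemma MM_unit (hS : S⁻¹ * S = 1) (hT : T⁻¹ * T = 1) (h : a * d - b * c ≠ 0) :
    IsUnit (MM S T a b c d) := by
  rw [MM_eq]
  refine ((FF_unit h).mul ?_).mul (FF_unit ?_)
  · have e : fromBlocks S⁻¹ 0 0 T⁻¹ * fromBlocks S 0 0 T = 1 := by
      rw [fromBlocks_multiply, ← fromBlocks_one]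
      simp [hS, hT]
    exact IsUnit.of_mul_eq_one _ (mul_eq_one_comm.mp e)
  · intro h'; apply h; linear_combination h'

/-- MAIN ALGEBRAIC IDENTITY.  `R = (z - M'')⁻¹`, `X = M (z - M)⁻¹`, `X~ = M~ (z - M~)⁻¹`. -/
theorem box_identity (hS : IsUnit S.det) (hT : IsUnit T.det)
    (hal : a * a + c * c ≠ 0) (hbe : b * b + d * d ≠ 0) (hga : a * b + c * d ≠ 0)
    (hde : a * d - b * c ≠ 0)
    (hz : IsUnit (z • 1 - Mpp S T (a * a + c * c) (b * b + d * d)
      ((a * b + c * d) * (a * b + c * d)))) :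
    let R := (z • 1 - Mpp S T (a * a + c * c) (b * b + d * d)
      ((a * b + c * d) * (a * b + c * d)))⁻¹
    let X := MM S T a b c d * (z • 1 - MM S T a b c d)⁻¹
    let Xt := MMt S T a b c d * (z • 1 - MMt S T a b c d)⁻¹
    trace (R * Mal S * (R * Mbe T))
        - ((a * b + c * d) * (a * b + c * d)) * trace (R * Mg T * (R * Mg T))
      = ((a * b + c * d) * (a * b + c * d))
          / (4 * (a * a + c * c) * (b * b + d * d) * (a * d - b * c) ^ 2)
          * (- trace ((X * Xt - Xt * X) * (X * Xt - Xt * X))) := by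
  intro R X Xt
  have hS1 : S * S⁻¹ = 1 := mul_nonsing_inv S hS
  have hS2 : S⁻¹ * S = 1 := nonsing_inv_mul S hS
  have hT1 : T * T⁻¹ = 1 := mul_nonsing_inv T hT
  have hT2 : T⁻¹ * T = 1 := nonsing_inv_mul T hT
  obtain ⟨v, w, hv, hw⟩ := exists_nu hS2 hT2 (mul_ne_zero hga hga) hz
  have hv' := mul_eq_one_comm.mp hv
  -- the resolvent of `M''`
  have hR : R = fromBlocks (S⁻¹ * ((z • T⁻¹ - (b * b + d * d) • 1) * v))
      (((a * b + c * d) * (a * b + c * d)) • (S⁻¹ * w)) (T⁻¹ * v)
      (T⁻¹ * ((z • S⁻¹ - (a * a + c * c) • 1) * w)) :=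
    inv_eq_right_inv (resolvent_Mpp hS1 hT1 hv' hw)
  -- `X`
  have hX1 := XX_mul (a := a) (b := b) (c := c) (d := d) hS2 hT2 hv hw
  set A := z • S⁻¹ - (a * a + c * c) • (1 : Matrix n n ℂ) with hA
  set B := z • T⁻¹ - (b * b + d * d) • (1 : Matrix n n ℂ) with hB
  have hMu : IsUnit (MM S T a b c d) := MM_unit hS2 hT2 hde
  have hzM : IsUnit (z • 1 - MM S T a b c d).det := by
    have h1 : IsUnit (MM S T a b c d).det := (isUnit_iff_isUnit_det _).mp hMu
    rw [← hX1, det_mul] at h1
    exact isUnit_of_mul_isUnit_right h1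
  have hX : X = XX A B v w a b c d := by
    have e : X * (z • 1 - MM S T a b c d) = MM S T a b c d := by
      simp only [X, mul_assoc, nonsing_inv_mul _ hzM, mul_one]
    calc X = X * ((z • 1 - MM S T a b c d) * (z • 1 - MM S T a b c d)⁻¹) := by
          rw [mul_nonsing_inv _ hzM, mul_one]
      _ = XX A B v w a b c d * (z • 1 - MM S T a b c d) * (z • 1 - MM S T a b c d)⁻¹ := by
          rw [← mul_assoc, e, hX1]
      _ = _ := by rw [mul_assoc, mul_nonsing_inv _ hzM, mul_one]
  have hXt : Xt = JT n * XX A B v w a b c d * JJ n := by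
    have e1 : z • 1 - MMt S T a b c d = JT n * (z • 1 - MM S T a b c d) * JJ n := by
      rw [mul_sub, sub_mul, ← MMt_eq, mul_smul_comm, mul_one, smul_mul_assoc, JT_mul_JJ]
    have e2 : (z • 1 - MMt S T a b c d)⁻¹ = JT n * (z • 1 - MM S T a b c d)⁻¹ * JJ n := by
      apply inv_eq_right_inv
      rw [e1]
      calc JT n * (z • 1 - MM S T a b c d) * JJ n * (JT n * (z • 1 - MM S T a b c d)⁻¹ * JJ n)
          = JT n * ((z • 1 - MM S T a b c d) * ((JJ n * JT n) * (z • 1 - MM S T a b c d)⁻¹))
              * JJ n := by simp only [mul_assoc]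
        _ = 1 := by rw [JJ_mul_JT, one_mul, mul_nonsing_inv _ hzM, mul_one, JT_mul_JJ]
    simp only [Xt]
    rw [e2, MMt_eq, ← hX]
    calc JT n * MM S T a b c d * JJ n * (JT n * (z • 1 - MM S T a b c d)⁻¹ * JJ n)
        = JT n * (MM S T a b c d * ((JJ n * JT n) * (z • 1 - MM S T a b c d)⁻¹)) * JJ n := by
          simp only [mul_assoc]
      _ = _ := by rw [JJ_mul_JT, one_mul]
  have hden : 4 * (a * a + c * c) * (b * b + d * d) * (a * d - b * c) ^ 2 ≠ 0 :=
    mul_ne_zero (mul_ne_zero (mul_ne_zero (by norm_num) hal) hbe) (pow_ne_zero 2 hde)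
  rw [hX, hXt, hR, trace_al_be hS2 hT2, trace_g_g hT2, trace_comm_sq hga hv hw,
    div_mul_eq_mul_div, eq_div_iff hden]
  ring

/-- `M''`, `M`, `M~` have the same characteristic polynomial. -/
theorem charpoly_MMt : (MMt S T a b c d).charpoly = (MM S T a b c d).charpoly := by
  rw [MMt_eq, charpoly_mul_comm, ← mul_assoc, JJ_mul_JT, one_mul]

theorem charpoly_Mpp (hga : a * b + c * d ≠ 0) :
    (Mpp S T (a * a + c * c) (b * b + d * d)
      ((a * b + c * d) * (a * b + c * d))).charpoly = (MM S T a b c d).charpoly := by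
  have e1 : (MM S T a b c d).charpoly
      = (fromBlocks ((a * a + c * c) • S) ((a * b + c * d) • T) ((a * b + c * d) • S)
          ((b * b + d * d) • T)).charpoly := by
    rw [MM_eq, charpoly_mul_comm, ← mul_assoc]
    congr 1
    simp only [FF, fromBlocks_multiply, mul_zero, add_zero, zero_add, zero_mul,
      smul_mul_assoc, mul_smul_comm, mul_one, one_mul, smul_smul, add_mul]
    congr 1 <;> module
  set ga := a * b + c * d with hgad
  have e2 : fromBlocks ((a * a + c * c) • S) (ga • T) (ga • S) ((b * b + d * d) • T)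
      = FF n 1 0 0 ga * (Mpp S T (a * a + c * c) (b * b + d * d) (ga * ga) * FF n 1 0 0 ga⁻¹) := by
    have g1 : ga⁻¹ * (ga * ga) = ga := by rw [← mul_assoc, inv_mul_cancel₀ hga, one_mul]
    have g2 : ga⁻¹ * (b * b + d * d) * ga = b * b + d * d := by
      rw [mul_comm ga⁻¹, mul_assoc, inv_mul_cancel₀ hga, mul_one]
    simp only [FF, Mpp, fromBlocks_multiply, mul_zero, add_zero, zero_add, zero_mul, zero_smul,
      one_smul, smul_mul_assoc, mul_smul_comm, mul_one, one_mul, smul_smul, smul_zero, g1, g2]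
  have e3 : FF n 1 0 0 ga⁻¹ * FF n 1 0 0 ga = 1 := by
    rw [FF, FF, fromBlocks_multiply, ← fromBlocks_one]
    simp [smul_smul, mul_inv_cancel₀ hga]
  rw [e1, e2, charpoly_mul_comm, mul_assoc, e3, mul_one]

end Final

end Lib_helper21.QS
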